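import Pool.Agent.MP_d32a63_an.H58.Spec

/-! Segments of a grid plan do not cross. -/

open Set
open Complex (I)
open Pool.Agent.MP_d32a63_an.H58

namespace Pool.Agent.MP_d32a63_an.H21

theorem seg_par {p q z : ℂ} (h : z ∈ segment ℝ p q) :
    ∃ t : ℝ, 0 ≤ t ∧ t ≤ 1 ∧ z.re = (1 - t) * p.re + t * q.re ∧
      z.im = (1 - t) * p.im + t * q.im := by
  obtain ⟨a, b, ha, hb, hab, rfl⟩ := h
  have : a = 1 - b := by linarith
  subst this
  refine ⟨b, hb, by linarith, ?_, ?_⟩ <;> simp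

theorem oseg_par {p q z : ℂ} (h : z ∈ openSegment ℝ p q) :
    ∃ t : ℝ, 0 < t ∧ t < 1 ∧ z.re = (1 - t) * p.re + t * q.re ∧
      z.im = (1 - t) * p.im + t * q.im := by
  obtain ⟨a, b, ha, hb, hab, rfl⟩ := h
  have : a = 1 - b := by linarith
  subst this
  refine ⟨b, hb, by linarith, ?_, ?_⟩ <;> simp

/-- A point of a closed vertical segment. -/
theorem seg_v {p q z : ℂ} (h : z ∈ segment ℝ p q) (hre : q.re = p.re) :
    z.re = p.re ∧ ((p.im ≤ z.im ∧ z.im ≤ q.im) ∨ (q.im ≤ z.im ∧ z.im ≤ p.im)) := by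
  obtain ⟨t, h0, h1, hr, hi⟩ := seg_par h
  refine ⟨by rw [hr, hre]; ring, ?_⟩
  rcases le_total p.im q.im with hpq | hpq
  · left; constructor <;> nlinarith
  · right; constructor <;> nlinarith

/-- A point of an open vertical segment. -/
theorem oseg_v {p q z : ℂ} (h : z ∈ openSegment ℝ p q) (hre : q.re = p.re) (hne : p.im ≠ q.im) :
    z.re = p.re ∧ ((p.im < z.im ∧ z.im < q.im) ∨ (q.im < z.im ∧ z.im < p.im)) := by
  obtain ⟨t, h0, h1, hr, hi⟩ := oseg_par h
  refine ⟨by rw [hr, hre]; ring, ?_⟩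
  rcases lt_or_gt_of_ne hne with hpq | hpq
  · left; constructor <;> nlinarith
  · right; constructor <;> nlinarith

theorem mem_oseg {p q z : ℂ} (hre : q.re = p.re) (hz : z.re = p.re) (h1 : p.im < z.im)
    (h2 : z.im < q.im) : z ∈ openSegment ℝ p q := by
  have hd : 0 < q.im - p.im := by linarith
  refine ⟨(q.im - z.im) / (q.im - p.im), (z.im - p.im) / (q.im - p.im),
    div_pos (by linarith) hd, div_pos (by linarith) hd, by field_simp; ring, ?_⟩
  apply Complex.ext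
  · simp only [Complex.add_re, Complex.real_smul, Complex.mul_re, Complex.ofReal_re,
      Complex.ofReal_im, zero_mul, sub_zero, hre, hz]
    field_simp; ring
  · simp only [Complex.add_im, Complex.real_smul, Complex.mul_im, Complex.ofReal_re,
      Complex.ofReal_im, zero_mul, add_zero]
    field_simp; ring

theorem mem_seg {p q z : ℂ} (hre : q.re = p.re) (hz : z.re = p.re) (h1 : p.im ≤ z.im)
    (h2 : z.im ≤ q.im) : z ∈ segment ℝ p q := by
  rcases h1.eq_or_lt with h | h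
  · have : z = p := Complex.ext hz h.symm
    rw [this]; exact left_mem_segment _ _ _
  rcases h2.eq_or_lt with h' | h'
  · have : z = q := Complex.ext (hz.trans hre.symm) h'
    rw [this]; exact right_mem_segment _ _ _
  exact openSegment_subset_segment _ _ _ (mem_oseg hre hz h h')

@[simp] theorem pos_re (P : GP) (x : ℤ × ℤ) : (P.pos x).re = (x.1 : ℝ) * P.ρ := by
  simp [GP.pos, gpos]

@[simp] theorem pos_im (P : GP) (x : ℤ × ℤ) : (P.pos x).im = P.Y x.1 x.2 := by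
  simp [GP.pos, gpos]

/-- The geometric hypotheses on the grid. -/
structure Grid (P : GP) : Prop where
  rho : 0 < P.ρ
  mono : ∀ a, StrictMono (P.Y a)

theorem col_eq {P : GP} (hP : Grid P) {a b : ℤ} (h : (a : ℝ) * P.ρ = (b : ℝ) * P.ρ) : a = b := by
  have := mul_right_cancel₀ hP.rho.ne' h
  exact_mod_cast this

theorem pos_inj {P : GP} (hP : Grid P) {x y : ℤ × ℤ} (h : P.pos x = P.pos y) : x = y := by
  have h1 : x.1 = y.1 := col_eq hP (by simpa using congrArg Complex.re h)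
  have h2 : P.Y x.1 x.2 = P.Y y.1 y.2 := by simpa using congrArg Complex.im h
  rw [← h1] at h2
  exact Prod.ext h1 ((hP.mono _).injective h2)

/-- An oriented unit edge: to the right or upwards. -/
def Un (u w : ℤ × ℤ) : Prop := w = (u.1 + 1, u.2) ∨ w = (u.1, u.2 + 1)

theorem adj_un {x y : ℤ × ℤ} (h : Adj x y) : Un x y ∨ Un y x := by
  obtain ⟨a, b⟩ := x
  obtain ⟨c, d⟩ := y
  simp only [Adj, Un, Prod.mk.injEq] at *
  omega

theorem ocolH {P : GP} (hP : Grid P) {u : ℤ × ℤ} {z : ℂ} {k : ℤ}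
    (h : z ∈ openSegment ℝ (P.pos u) (P.pos (u.1 + 1, u.2))) (hk : z.re = (k : ℝ) * P.ρ) :
    False := by
  obtain ⟨t, h0, h1, hr, -⟩ := oseg_par h
  simp only [pos_re] at hr
  push_cast at hr
  have h2 : (k : ℝ) = u.1 + t := by
    apply mul_right_cancel₀ hP.rho.ne'
    rw [← hk, hr]; ring
  have h3 : (u.1 : ℝ) < k := by linarith
  have h4 : (k : ℝ) < u.1 + 1 := by linarith
  have h5 : u.1 < k := by exact_mod_cast h3
  have h6 : k < u.1 + 1 := by exact_mod_cast h4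
  omega

theorem colH {P : GP} (hP : Grid P) {u : ℤ × ℤ} {z : ℂ} {k : ℤ}
    (h : z ∈ segment ℝ (P.pos u) (P.pos (u.1 + 1, u.2))) (hk : z.re = (k : ℝ) * P.ρ) :
    z.im = P.Y k u.2 := by
  rw [← insert_endpoints_openSegment] at h
  rcases h with h | h | h
  · rw [h] at hk ⊢
    have : u.1 = k := col_eq hP (by simpa using hk)
    rw [pos_im, this]
  · rw [h] at hk ⊢
    have : u.1 + 1 = k := col_eq hP (by simpa using hk)
    rw [pos_im, ← this]
  · exact (ocolH hP h hk).elim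

theorem segV {P : GP} (hP : Grid P) {u : ℤ × ℤ} {z : ℂ}
    (h : z ∈ segment ℝ (P.pos u) (P.pos (u.1, u.2 + 1))) :
    z.re = (u.1 : ℝ) * P.ρ ∧ P.Y u.1 u.2 ≤ z.im ∧ z.im ≤ P.Y u.1 (u.2 + 1) := by
  obtain ⟨h1, h2⟩ := seg_v h (by simp)
  simp only [pos_re, pos_im] at h1 h2
  have := hP.mono u.1 (show u.2 < u.2 + 1 by omega)
  refine ⟨h1, ?_⟩
  rcases h2 with h2 | h2
  · exact h2
  · exact ⟨by linarith [h2.1, h2.2], by linarith [h2.1, h2.2]⟩

theorem osegV {P : GP} (hP : Grid P) {u : ℤ × ℤ} {z : ℂ}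
    (h : z ∈ openSegment ℝ (P.pos u) (P.pos (u.1, u.2 + 1))) :
    z.re = (u.1 : ℝ) * P.ρ ∧ P.Y u.1 u.2 < z.im ∧ z.im < P.Y u.1 (u.2 + 1) := by
  have := hP.mono u.1 (show u.2 < u.2 + 1 by omega)
  obtain ⟨h1, h2⟩ := oseg_v h (by simp) (by simpa using this.ne)
  simp only [pos_re, pos_im] at h1 h2
  refine ⟨h1, ?_⟩
  rcases h2 with h2 | h2
  · exact h2
  · exact ⟨by linarith [h2.1, h2.2], by linarith [h2.1, h2.2]⟩

theorem uu0 {P : GP} (hP : Grid P) {u w u' w' : ℤ × ℤ} (h : Un u w) (h' : Un u' w')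
    (hne : ¬(u = u' ∧ w = w')) :
    Disjoint (openSegment ℝ (P.pos u) (P.pos w)) (segment ℝ (P.pos u') (P.pos w')) := by
  rw [Set.disjoint_left]
  intro z hz hz'
  rcases h with rfl | rfl <;> rcases h' with rfl | rfl
  · obtain ⟨t, h0, h1, hr, hi⟩ := oseg_par hz
    obtain ⟨t', h0', h1', hr', hi'⟩ := seg_par hz'
    simp only [pos_re, pos_im] at hr hi hr' hi'
    push_cast at hr hr'
    have h2 : (u.1 : ℝ) + t = u'.1 + t' := by
      apply mul_right_cancel₀ hP.rho.ne'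
      linarith
    have h3 : (u.1 : ℝ) < u'.1 + 1 := by linarith
    have h4 : (u'.1 : ℝ) < u.1 + 1 := by linarith
    have h5 : u.1 < u'.1 + 1 := by exact_mod_cast h3
    have h6 : u'.1 < u.1 + 1 := by exact_mod_cast h4
    have h7 : u.1 = u'.1 := by omega
    have h8 : t' = t := by rw [h7] at h2; linarith
    rw [h8, ← h7] at hi'
    have h9 : u.2 = u'.2 := by
      rcases lt_trichotomy u.2 u'.2 with hl | hl | hl
      · have a1 := hP.mono u.1 hl
        have a2 := hP.mono (u.1 + 1) hl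
        nlinarith
      · exact hl
      · have a1 := hP.mono u.1 hl
        have a2 := hP.mono (u.1 + 1) hl
        nlinarith
    have : u = u' := Prod.ext h7 h9
    exact hne ⟨this, by rw [this]⟩
  · exact ocolH hP hz (segV hP hz').1
  · obtain ⟨h1, h2, h3⟩ := osegV hP hz
    rw [colH hP hz' h1] at h2 h3
    have a1 := (hP.mono u.1).lt_iff_lt.1 h2
    have a2 := (hP.mono u.1).lt_iff_lt.1 h3
    omega
  · obtain ⟨h1, h2, h3⟩ := osegV hP hz
    obtain ⟨h1', h2', h3'⟩ := segV hP hz'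
    have h7 : u.1 = u'.1 := col_eq hP (h1.symm.trans h1')
    rw [← h7] at h2' h3'
    have a1 := (hP.mono u.1).lt_iff_lt.1 (h2.trans_le h3')
    have a2 := (hP.mono u.1).lt_iff_lt.1 (h2'.trans_lt h3)
    have : u = u' := Prod.ext h7 (by omega)
    exact hne ⟨this, by rw [this]⟩

theorem uu {P : GP} (hP : Grid P) {x y x' y' : ℤ × ℤ} (h : Adj x y) (h' : Adj x' y')
    (h1 : ¬(x = x' ∧ y = y')) (h2 : ¬(x = y' ∧ y = x')) :
    Disjoint (openSegment ℝ (P.pos x) (P.pos y)) (segment ℝ (P.pos x') (P.pos y')) := by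
  rcases adj_un h with a | a <;> rcases adj_un h' with b | b
  · exact uu0 hP a b h1
  · rw [segment_symm]; exact uu0 hP a b h2
  · rw [openSegment_symm]; exact uu0 hP a b fun c => h2 ⟨c.2, c.1⟩
  · rw [openSegment_symm, segment_symm]; exact uu0 hP a b fun c => h1 ⟨c.2, c.1⟩

/-- An anchor segment from the vertex `x` to the point `y` of `C`. -/
structure An (P : GP) (C : Set ℂ) (x : ℤ × ℤ) (y : ℂ) : Prop where
  out : P.pos x ∉ C
  mem : y ∈ C
  re : y.re = (x.1 : ℝ) * P.ρ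
  lo : P.Y x.1 (x.2 - 1) ≤ y.im
  hi : y.im ≤ P.Y x.1 (x.2 + 1)
  free : Disjoint (openSegment ℝ (P.pos x) y) C

theorem An.ne_im {P : GP} {C : Set ℂ} {x : ℤ × ℤ} {y : ℂ} (h : An P C x y) :
    (P.pos x).im ≠ y.im := by
  intro e
  have : P.pos x = y := Complex.ext (by rw [h.re, pos_re]) e
  exact h.out (this ▸ h.mem)

theorem An.seg {P : GP} {C : Set ℂ} {x : ℤ × ℤ} {y z : ℂ} (h : An P C x y)
    (hz : z ∈ segment ℝ (P.pos x) y) : z.re = (x.1 : ℝ) * P.ρ ∧
      ((P.Y x.1 x.2 ≤ z.im ∧ z.im ≤ y.im) ∨ (y.im ≤ z.im ∧ z.im ≤ P.Y x.1 x.2)) := by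
  simpa using seg_v hz (by rw [h.re, pos_re])

theorem An.oseg {P : GP} {C : Set ℂ} {x : ℤ × ℤ} {y z : ℂ} (h : An P C x y)
    (hz : z ∈ openSegment ℝ (P.pos x) y) : z.re = (x.1 : ℝ) * P.ρ ∧
      ((P.Y x.1 x.2 < z.im ∧ z.im < y.im) ∨ (y.im < z.im ∧ z.im < P.Y x.1 x.2)) := by
  simpa using oseg_v hz (by rw [h.re, pos_re]) h.ne_im

/-- No point of `C` in the column lies between the vertex and the anchor, upwards. -/
theorem An.up {P : GP} {C : Set ℂ} {x : ℤ × ℤ} {y w : ℂ} (h : An P C x y) (hw : w ∈ C)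
    (hre : w.re = (x.1 : ℝ) * P.ρ) (h1 : P.Y x.1 x.2 ≤ w.im) (h2 : w.im < y.im) : False := by
  rcases h1.eq_or_lt with e | e
  · have : P.pos x = w := Complex.ext (by rw [hre, pos_re]) (by rw [pos_im, e])
    exact h.out (this ▸ hw)
  · exact Set.disjoint_left.1 h.free
      (mem_oseg (by rw [h.re, pos_re]) (by rw [hre, pos_re]) (by rwa [pos_im]) h2) hw

theorem An.down {P : GP} {C : Set ℂ} {x : ℤ × ℤ} {y w : ℂ} (h : An P C x y) (hw : w ∈ C)
    (hre : w.re = (x.1 : ℝ) * P.ρ) (h1 : w.im ≤ P.Y x.1 x.2) (h2 : y.im < w.im) : False := by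
  rcases h1.eq_or_lt with e | e
  · have : P.pos x = w := Complex.ext (by rw [hre, pos_re]) (by rw [pos_im, e])
    exact h.out (this ▸ hw)
  · refine Set.disjoint_left.1 h.free ?_ hw
    rw [openSegment_symm]
    exact mem_oseg (by rw [h.re, pos_re]) (by rw [hre, h.re]) h2 (by rwa [pos_im])

theorem notV {P : GP} {C : Set ℂ} {u : ℤ × ℤ} {w : ℂ}
    (hd : Disjoint (segment ℝ (P.pos u) (P.pos (u.1, u.2 + 1))) C) (hw : w ∈ C)
    (hre : w.re = (u.1 : ℝ) * P.ρ) (h1 : P.Y u.1 u.2 ≤ w.im) (h2 : w.im ≤ P.Y u.1 (u.2 + 1)) :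
    False :=
  Set.disjoint_left.1 hd (mem_seg (by simp) (by rw [hre, pos_re]) (by rwa [pos_im])
    (by rwa [pos_im])) hw

theorem ua0 {P : GP} (hP : Grid P) {C : Set ℂ} {u w x : ℤ × ℤ} {y : ℂ} (h : Un u w)
    (hd : Disjoint (segment ℝ (P.pos u) (P.pos w)) C) (hA : An P C x y) :
    Disjoint (openSegment ℝ (P.pos u) (P.pos w)) (segment ℝ (P.pos x) y) := by
  rw [Set.disjoint_left]
  intro z hz hz'
  obtain ⟨b1, b2⟩ := hA.seg hz'
  rcases h with rfl | rfl
  · exact ocolH hP hz b1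
  · obtain ⟨h1, h2, h3⟩ := osegV hP hz
    have h7 : x.1 = u.1 := col_eq hP (b1.symm.trans h1)
    have lo := hA.lo
    have hi := hA.hi
    have hre := hA.re
    rw [h7] at b2 lo hi hre
    rcases b2 with ⟨c1, c2⟩ | ⟨c1, c2⟩
    · have a2 := (hP.mono u.1).lt_iff_lt.1 (c1.trans_lt h3)
      have a3 : P.Y u.1 (x.2 + 1) ≤ P.Y u.1 (u.2 + 1) := (hP.mono u.1).monotone (by omega)
      exact notV hd hA.mem hre (by linarith) (by linarith)
    · have a2 := (hP.mono u.1).lt_iff_lt.1 (h2.trans_le c2)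
      have a3 : P.Y u.1 u.2 ≤ P.Y u.1 (x.2 - 1) := (hP.mono u.1).monotone (by omega)
      exact notV hd hA.mem hre (by linarith) (by linarith)

theorem au0 {P : GP} (hP : Grid P) {C : Set ℂ} {u w x : ℤ × ℤ} {y : ℂ} (h : Un u w)
    (hd : Disjoint (segment ℝ (P.pos u) (P.pos w)) C) (hA : An P C x y) :
    Disjoint (openSegment ℝ (P.pos x) y) (segment ℝ (P.pos u) (P.pos w)) := by
  rw [Set.disjoint_left]
  intro z hz hz'
  obtain ⟨b1, b2⟩ := hA.oseg hz
  have lo := hA.lo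
  have hi := hA.hi
  rcases h with rfl | rfl
  · rw [colH hP hz' b1] at b2
    rcases b2 with ⟨c1, c2⟩ | ⟨c1, c2⟩
    · have a1 := (hP.mono x.1).lt_iff_lt.1 c1
      have a2 := (hP.mono x.1).lt_iff_lt.1 (c2.trans_le hi)
      omega
    · have a1 := (hP.mono x.1).lt_iff_lt.1 c2
      have a2 := (hP.mono x.1).lt_iff_lt.1 (lo.trans_lt c1)
      omega
  · obtain ⟨h1, h2, h3⟩ := segV hP hz'
    have h7 : x.1 = u.1 := col_eq hP (b1.symm.trans h1)
    have hre := hA.re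
    rw [h7] at b2 lo hi hre
    rcases b2 with ⟨c1, c2⟩ | ⟨c1, c2⟩
    · have a2 := (hP.mono u.1).lt_iff_lt.1 (h2.trans_lt (c2.trans_le hi))
      have a1 := (hP.mono u.1).lt_iff_lt.1 (c1.trans_le h3)
      have a3 : x.2 = u.2 := by omega
      rw [a3] at hi
      exact notV hd hA.mem hre (by linarith) hi
    · have a2 := (hP.mono u.1).lt_iff_lt.1 (h2.trans_lt c2)
      have a1 := (hP.mono u.1).lt_iff_lt.1 ((lo.trans_lt c1).trans_le h3)
      have a3 : x.2 - 1 = u.2 := by omega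
      rw [a3] at lo
      exact notV hd hA.mem hre lo (by linarith)

theorem ua {P : GP} (hP : Grid P) {C : Set ℂ} {u w x : ℤ × ℤ} {y : ℂ} (h : Adj u w)
    (hd : Disjoint (segment ℝ (P.pos u) (P.pos w)) C) (hA : An P C x y) :
    Disjoint (openSegment ℝ (P.pos u) (P.pos w)) (segment ℝ (P.pos x) y) := by
  rcases adj_un h with a | a
  · exact ua0 hP a hd hA
  · rw [openSegment_symm]; rw [segment_symm] at hd; exact ua0 hP a hd hA

theorem au {P : GP} (hP : Grid P) {C : Set ℂ} {u w x : ℤ × ℤ} {y : ℂ} (h : Adj u w)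
    (hd : Disjoint (segment ℝ (P.pos u) (P.pos w)) C) (hA : An P C x y) :
    Disjoint (openSegment ℝ (P.pos x) y) (segment ℝ (P.pos u) (P.pos w)) := by
  rcases adj_un h with a | a
  · exact au0 hP a hd hA
  · rw [segment_symm] at hd ⊢; exact au0 hP a hd hA

theorem aa {P : GP} (hP : Grid P) {C : Set ℂ} {x x' : ℤ × ℤ} {y y' : ℂ} (hA : An P C x y)
    (hA' : An P C x' y') (hne : ¬(x = x' ∧ y = y')) :
    Disjoint (openSegment ℝ (P.pos x) y) (segment ℝ (P.pos x') y') := by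
  rw [Set.disjoint_left]
  intro z hz hz'
  obtain ⟨b1, b2⟩ := hA.oseg hz
  obtain ⟨b1', b2'⟩ := hA'.seg hz'
  have h7 : x'.1 = x.1 := col_eq hP (b1'.symm.trans b1)
  have lo := hA.lo
  have hi := hA.hi
  have lo' := hA'.lo
  have hi' := hA'.hi
  have hre' := hA'.re
  have hre : y.re = (x'.1 : ℝ) * P.ρ := by rw [h7]; exact hA.re
  have up' := hA'.up hA.mem hre
  have down' := hA'.down hA.mem hre
  rw [h7] at b2' lo' hi' hre' up' down'
  have up := hA.up hA'.mem hre'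
  have down := hA.down hA'.mem hre'
  have hyy : x.2 = x'.2 → y.im ≠ y'.im := fun e e' =>
    hne ⟨Prod.ext h7.symm e, Complex.ext (hA.re.trans hre'.symm) e'⟩
  rcases b2 with ⟨c1, c2⟩ | ⟨c1, c2⟩ <;> rcases b2' with ⟨d1, d2⟩ | ⟨d1, d2⟩
  · have a1 := (hP.mono x.1).lt_iff_lt.1 (d1.trans_lt (c2.trans_le hi))
    have a2 := (hP.mono x.1).lt_iff_lt.1 (c1.trans_le (d2.trans hi'))
    rcases lt_or_gt_of_ne (hyy (by omega)) with e | e
    · exact up' (by linarith) e
    · exact up (by linarith) e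
  · have a2 := (hP.mono x.1).lt_iff_lt.1 (c1.trans_le d2)
    have a3 : P.Y x.1 x.2 ≤ P.Y x.1 (x'.2 - 1) := (hP.mono x.1).monotone (by omega)
    exact up (by linarith) (by linarith)
  · have a2 := (hP.mono x.1).lt_iff_lt.1 (d1.trans_lt c2)
    have a3 : P.Y x.1 (x'.2 + 1) ≤ P.Y x.1 x.2 := (hP.mono x.1).monotone (by omega)
    exact down (by linarith) (by linarith)
  · have a1 := (hP.mono x.1).lt_iff_lt.1 ((lo.trans_lt c1).trans_le d2)
    have a2 := (hP.mono x.1).lt_iff_lt.1 ((lo'.trans d1).trans_lt c2)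
    rcases lt_or_gt_of_ne (hyy (by omega)) with e | e
    · exact down (by linarith) e
    · exact down' (by linarith) e

end Pool.Agent.MP_d32a63_an.H21
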