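import Pool.Agent.MP_d32a63_an.H21.Geo

/-! Realisation of a grid plan from the realisation of a forest. -/

open Set Polynomial
open Pool.Agent.MP_d32a63_an.H58
open Pool.Agent.MP_d32a63_an.H95 (Core Sec jet RealStmt)

namespace Pool.Agent.MP_d32a63_an.H21

noncomputable section

/-- The starting point of the edge that ends at the vertex `x`. -/
def eP (P : GP) (x : ℤ × ℤ) : ℂ :=
  match P.par x with
  | some y => P.pos y
  | none => (P.aE x).getD 0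

/-- The label at the starting point of the edge that ends at the vertex `x`. -/
def eT (P : GP) (x : ℤ × ℤ) : ℂ[X] :=
  match P.par x with
  | some y => P.T y
  | none => P.T x

/-- The far end of a gap. -/
def gB (P : GP) (g : (ℤ × ℤ) × Bool) : ℂ :=
  match g.2 with
  | false => P.pos ((P.gap g.1).getD g.1)
  | true => (P.aG g.1).getD 0

open Classical in
def JJ (P : GP) (F : ℕ → ℂ → ℂ) (j : ℕ) (z : ℂ) : ℂ :=
  if h : ∃ x ∈ P.V, P.pos x = z then jet (P.T h.choose) j z else F j z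

open Classical in
def ph (P : GP) (z : ℂ) : ℝ :=
  if h : ∃ x ∈ P.V, P.pos x = z then (P.rk h.choose : ℝ) + 1 else 0

theorem JJ_pos {P : GP} (hP : Grid P) (F : ℕ → ℂ → ℂ) (j : ℕ) {x : ℤ × ℤ} (hx : x ∈ P.V) :
    JJ P F j (P.pos x) = jet (P.T x) j (P.pos x) := by
  have h : ∃ y ∈ P.V, P.pos y = P.pos x := ⟨x, hx, rfl⟩
  rw [JJ, dif_pos h, pos_inj hP h.choose_spec.2]

theorem ph_pos {P : GP} (hP : Grid P) {x : ℤ × ℤ} (hx : x ∈ P.V) :
    ph P (P.pos x) = (P.rk x : ℝ) + 1 := by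
  have h : ∃ y ∈ P.V, P.pos y = P.pos x := ⟨x, hx, rfl⟩
  rw [ph, dif_pos h, pos_inj hP h.choose_spec.2]

theorem JJ_out {P : GP} {C : Set ℂ} (ho : ∀ x ∈ P.V, P.pos x ∉ C) (F : ℕ → ℂ → ℂ) (j : ℕ)
    {z : ℂ} (hz : z ∈ C) : JJ P F j z = F j z := by
  have h : ¬∃ y ∈ P.V, P.pos y = z := fun ⟨y, hy, e⟩ => ho y hy (e ▸ hz)
  rw [JJ, dif_neg h]

theorem ph_out {P : GP} {C : Set ℂ} (ho : ∀ x ∈ P.V, P.pos x ∉ C) {z : ℂ} (hz : z ∈ C) :
    ph P z = 0 := by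
  have h : ¬∃ y ∈ P.V, P.pos y = z := fun ⟨y, hy, e⟩ => ho y hy (e ▸ hz)
  rw [ph, dif_neg h]

/-- The vertices that carry an edge. -/
def IsE (P : GP) (x : ℤ × ℤ) : Prop := x ∈ P.V ∧ (P.par x ≠ none ∨ P.aE x ≠ none)

/-- The indices that carry a gap. -/
def IsG (P : GP) (g : (ℤ × ℤ) × Bool) : Prop :=
  g.1 ∈ P.V ∧ ((g.2 = false ∧ P.gap g.1 ≠ none) ∨ (g.2 = true ∧ P.aG g.1 ≠ none))

theorem eP_par {P : GP} {x y : ℤ × ℤ} (h : P.par x = some y) :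
    eP P x = P.pos y ∧ eT P x = P.T y := by
  simp [eP, eT, h]

theorem eP_anc {P : GP} {x : ℤ × ℤ} {y : ℂ} (h : P.par x = none) (h' : P.aE x = some y) :
    eP P x = y ∧ eT P x = P.T x := by
  simp [eP, eT, h, h']

theorem IsE.cases {P : GP} {x : ℤ × ℤ} (h : IsE P x) :
    (∃ y, P.par x = some y ∧ eP P x = P.pos y ∧ eT P x = P.T y) ∨
      (∃ y, P.aE x = some y ∧ eP P x = y ∧ eT P x = P.T x) := by
  rcases hp : P.par x with _ | y
  · right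
    rcases h.2 with h2 | h2
    · exact (h2 hp).elim
    · obtain ⟨y, hy⟩ := Option.ne_none_iff_exists'.1 h2
      exact ⟨y, hy, eP_anc hp hy⟩
  · exact Or.inl ⟨y, rfl, eP_par hp⟩

theorem gB_gap {P : GP} {x y : ℤ × ℤ} (h : P.gap x = some y) : gB P (x, false) = P.pos y := by
  simp [gB, h]

theorem gB_anc {P : GP} {x : ℤ × ℤ} {y : ℂ} (h : P.aG x = some y) : gB P (x, true) = y := by
  simp [gB, h]

theorem IsG.cases {P : GP} {g : (ℤ × ℤ) × Bool} (h : IsG P g) :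
    (g.2 = false ∧ ∃ y, P.gap g.1 = some y ∧ gB P g = P.pos y) ∨
      (g.2 = true ∧ ∃ y, P.aG g.1 = some y ∧ gB P g = y) := by
  obtain ⟨x, c⟩ := g
  rcases h.2 with ⟨h1, h2⟩ | ⟨h1, h2⟩
  · obtain ⟨y, hy⟩ := Option.ne_none_iff_exists'.1 h2
    obtain rfl : c = false := h1
    exact Or.inl ⟨rfl, y, hy, gB_gap hy⟩
  · obtain ⟨y, hy⟩ := Option.ne_none_iff_exists'.1 h2
    obtain rfl : c = true := h1
    exact Or.inr ⟨rfl, y, hy, gB_anc hy⟩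

section OK

variable {P : GP} {n : ℕ} {W : Set ℂ} {F : ℕ → ℂ → ℂ} {κ : ℝ}

theorem grid (h : P.OK n W F κ) : Grid P := ⟨h.rho, h.mono⟩

theorem an_of (h : P.OK n W F κ) {x : ℤ × ℤ} (hx : x ∈ P.V) {y : ℂ} (hA : P.Anc n W F κ x y) :
    An P (closure W) x y :=
  ⟨h.out x hx, hA.mem, hA.re, hA.lo, hA.hi, hA.free⟩

theorem gap_adj (h : P.OK n W F κ) {x y : ℤ × ℤ} (hx : x ∈ P.V) (hy : P.gap x = some y) :
    Adj x y := Or.inr ⟨(h.gap x hx y hy).2.1, (h.gap x hx y hy).2.2.1⟩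

theorem c_rank (h : P.OK n W F κ) {e : ℤ × ℤ} (he : IsE P e) :
    ph P (eP P e) < ph P (P.pos e) := by
  rw [ph_pos (grid h) he.1]
  rcases he.cases with ⟨y, hy, e1, -⟩ | ⟨y, hy, e1, -⟩
  · obtain ⟨hV, -, hr, -⟩ := h.par e he.1 y hy
    rw [e1, ph_pos (grid h) hV]
    have : (P.rk y : ℝ) < P.rk e := by exact_mod_cast hr
    linarith
  · rw [e1, ph_out h.out (h.aE e he.1 y hy).1.mem]
    positivity

theorem c_meet (h : P.OK n W F κ) {e : ℤ × ℤ} (he : IsE P e) :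
    segment ℝ (eP P e) (P.pos e) ∩ closure W ⊆ {eP P e} := by
  rintro z ⟨hz, hC⟩
  rcases he.cases with ⟨y, hy, e1, -⟩ | ⟨y, hy, e1, -⟩
  · obtain ⟨-, -, -, -, hd, -⟩ := h.par e he.1 y hy
    rw [e1, segment_symm] at hz
    exact (Set.disjoint_left.1 hd hz hC).elim
  · rw [e1] at hz ⊢
    rw [segment_symm, ← insert_endpoints_openSegment] at hz
    rcases hz with hz | hz | hz
    · exact (h.out e he.1 (hz ▸ hC)).elim
    · exact hz
    · exact (Set.disjoint_left.1 (h.aE e he.1 y hy).1.free hz hC).elim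

theorem c_ee (h : P.OK n W F κ) {e e' : ℤ × ℤ} (he : IsE P e) (he' : IsE P e') (hne : e ≠ e') :
    Disjoint (openSegment ℝ (eP P e) (P.pos e)) (segment ℝ (eP P e') (P.pos e')) := by
  rw [openSegment_symm, segment_symm]
  rcases he.cases with ⟨y, hy, e1, -⟩ | ⟨y, hy, e1, -⟩ <;>
    rcases he'.cases with ⟨y', hy', e1', -⟩ | ⟨y', hy', e1', -⟩ <;> rw [e1, e1']
  · obtain ⟨-, a1, r1, -⟩ := h.par e he.1 y hy
    obtain ⟨-, a2, r2, -⟩ := h.par e' he'.1 y' hy'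
    refine uu (grid h) a1 a2 (fun c => hne c.1) fun c => ?_
    rw [← c.1, ← c.2] at r2
    omega
  · obtain ⟨-, a1, -, -, d1, -⟩ := h.par e he.1 y hy
    exact ua (grid h) a1 d1 (an_of h he'.1 (h.aE e' he'.1 y' hy').1)
  · obtain ⟨-, a1, -, -, d1, -⟩ := h.par e' he'.1 y' hy'
    exact au (grid h) a1 d1 (an_of h he.1 (h.aE e he.1 y hy).1)
  · exact aa (grid h) (an_of h he.1 (h.aE e he.1 y hy).1)
      (an_of h he'.1 (h.aE e' he'.1 y' hy').1) fun c => hne c.1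

theorem c_g (h : P.OK n W F κ) {g : (ℤ × ℤ) × Bool} (hg : IsG P g) :
    P.pos g.1 ≠ gB P g ∧ Disjoint (openSegment ℝ (P.pos g.1) (gB P g)) (closure W) := by
  rcases hg.cases with ⟨-, y, hy, e1⟩ | ⟨-, y, hy, e1⟩ <;> rw [e1]
  · obtain ⟨-, -, h2, -, -, -, -, -, -, hd, -⟩ := h.gap g.1 hg.1 y hy
    refine ⟨fun c => ?_, hd.mono_left (openSegment_subset_segment _ _ _)⟩
    have := pos_inj (grid h) c
    rw [← this] at h2
    omega
  · have hA := (h.aG g.1 hg.1 y hy).1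
    exact ⟨fun c => h.out g.1 hg.1 (c ▸ hA.mem), hA.free⟩

theorem c_gg (h : P.OK n W F κ) {g g' : (ℤ × ℤ) × Bool} (hg : IsG P g) (hg' : IsG P g')
    (hne : g ≠ g') :
    Disjoint (openSegment ℝ (P.pos g.1) (gB P g)) (segment ℝ (P.pos g'.1) (gB P g')) := by
  rcases hg.cases with ⟨b, y, hy, e1⟩ | ⟨b, y, hy, e1⟩ <;>
    rcases hg'.cases with ⟨b', y', hy', e1'⟩ | ⟨b', y', hy', e1'⟩ <;> rw [e1, e1']
  · refine uu (grid h) (gap_adj h hg.1 hy) (gap_adj h hg'.1 hy')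
      (fun c => hne (Prod.ext c.1 (b.trans b'.symm))) fun c => ?_
    obtain ⟨-, -, -, -, -, h6, -⟩ := h.gap g.1 hg.1 y hy
    rw [c.2, c.1] at h6
    exact h6 hy'
  · obtain ⟨-, -, -, -, -, -, -, -, -, hd, -⟩ := h.gap g.1 hg.1 y hy
    exact ua (grid h) (gap_adj h hg.1 hy) hd (an_of h hg'.1 (h.aG g'.1 hg'.1 y' hy').1)
  · obtain ⟨-, -, -, -, -, -, -, -, -, hd, -⟩ := h.gap g'.1 hg'.1 y' hy'
    exact au (grid h) (gap_adj h hg'.1 hy') hd (an_of h hg.1 (h.aG g.1 hg.1 y hy).1)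
  · exact aa (grid h) (an_of h hg.1 (h.aG g.1 hg.1 y hy).1)
      (an_of h hg'.1 (h.aG g'.1 hg'.1 y' hy').1) fun c => hne (Prod.ext c.1 (b.trans b'.symm))

theorem c_eg (h : P.OK n W F κ) {e : ℤ × ℤ} (he : IsE P e) {g : (ℤ × ℤ) × Bool} (hg : IsG P g) :
    Disjoint (openSegment ℝ (eP P e) (P.pos e)) (segment ℝ (P.pos g.1) (gB P g)) ∧
      Disjoint (openSegment ℝ (P.pos g.1) (gB P g)) (segment ℝ (eP P e) (P.pos e)) := by
  rw [openSegment_symm ℝ (eP P e), segment_symm ℝ (eP P e)]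
  rcases he.cases with ⟨y, hy, e1, -⟩ | ⟨y, hy, e1, -⟩ <;>
    rcases hg.cases with ⟨-, y', hy', e1'⟩ | ⟨-, y', hy', e1'⟩ <;> rw [e1, e1']
  · obtain ⟨-, a1, -⟩ := h.par e he.1 y hy
    obtain ⟨-, -, -, h4, h5, -⟩ := h.gap g.1 hg.1 y' hy'
    have n1 : ¬(e = g.1 ∧ y = y') := fun c => h4 (by rw [← c.1, ← c.2]; exact hy)
    have n2 : ¬(e = y' ∧ y = g.1) := fun c => h5 (by rw [← c.1, ← c.2]; exact hy)
    exact ⟨uu (grid h) a1 (gap_adj h hg.1 hy') n1 n2,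
      uu (grid h) (gap_adj h hg.1 hy') a1 (fun c => n1 ⟨c.1.symm, c.2.symm⟩)
        fun c => n2 ⟨c.2.symm, c.1.symm⟩⟩
  · obtain ⟨-, a1, -, -, d1, -⟩ := h.par e he.1 y hy
    have hA := an_of h hg.1 (h.aG g.1 hg.1 y' hy').1
    exact ⟨ua (grid h) a1 d1 hA, au (grid h) a1 d1 hA⟩
  · obtain ⟨-, -, -, -, -, -, -, -, -, hd, -⟩ := h.gap g.1 hg.1 y' hy'
    have hA := an_of h he.1 (h.aE e he.1 y hy).1
    exact ⟨au (grid h) (gap_adj h hg.1 hy') hd hA, ua (grid h) (gap_adj h hg.1 hy') hd hA⟩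
  · have hA := an_of h he.1 (h.aE e he.1 y hy).1
    have hA' := an_of h hg.1 (h.aG g.1 hg.1 y' hy').1
    have n1 : ¬(e = g.1 ∧ y = y') := fun c =>
      (h.aE e he.1 y hy).2 (by rw [c.1, c.2]; exact hy')
    exact ⟨aa (grid h) hA hA' n1, aa (grid h) hA' hA fun c => n1 ⟨c.1.symm, c.2.symm⟩⟩

theorem c_ej (h : P.OK n W F κ) {e : ℤ × ℤ} (he : IsE P e) (j : ℕ) (hj : j ≤ n) :
    jet (eT P e) j (eP P e) = JJ P F j (eP P e) ∧
      jet (P.T e) j (P.pos e) = JJ P F j (P.pos e) := by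
  refine ⟨?_, (JJ_pos (grid h) F j he.1).symm⟩
  rcases he.cases with ⟨y, hy, e1, e2⟩ | ⟨y, hy, e1, e2⟩ <;> rw [e1, e2]
  · exact (JJ_pos (grid h) F j (h.par e he.1 y hy).1).symm
  · have hA := (h.aE e he.1 y hy).1
    rw [JJ_out h.out F j hA.mem, hA.jets j hj]

theorem c_gj (h : P.OK n W F κ) {g : (ℤ × ℤ) × Bool} (hg : IsG P g) (j : ℕ) (hj : j ≤ n) :
    jet (P.T g.1) j (P.pos g.1) = JJ P F j (P.pos g.1) ∧
      jet (P.T g.1) j (gB P g) = JJ P F j (gB P g) := by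
  refine ⟨(JJ_pos (grid h) F j hg.1).symm, ?_⟩
  rcases hg.cases with ⟨-, y, hy, e1⟩ | ⟨-, y, hy, e1⟩ <;> rw [e1]
  · obtain ⟨hV, -, -, -, -, -, hT, -⟩ := h.gap g.1 hg.1 y hy
    rw [JJ_pos (grid h) F j hV, hT]
  · have hA := (h.aG g.1 hg.1 y hy).1
    rw [JJ_out h.out F j hA.mem, hA.jets j hj]

theorem c_ec (h : P.OK n W F κ) {e : ℤ × ℤ} (he : IsE P e) (j : ℕ) (hj : j ≤ n) (z : ℂ)
    (hz : z ∈ segment ℝ (eP P e) (P.pos e)) :
    ‖jet (eT P e) j z - F j z‖ ≤ κ / 2 ∧ ‖jet (P.T e) j z - F j z‖ ≤ κ / 2 := by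
  rw [segment_symm] at hz
  rcases he.cases with ⟨y, hy, e1, e2⟩ | ⟨y, hy, e1, e2⟩ <;> rw [e1] at hz <;> rw [e2]
  · obtain ⟨-, -, -, -, -, k1, k2⟩ := h.par e he.1 y hy
    exact ⟨k2 j hj z hz, k1 j hj z hz⟩
  · have hA := (h.aE e he.1 y hy).1
    exact ⟨hA.close j hj z hz, hA.close j hj z hz⟩

theorem c_gc (h : P.OK n W F κ) {g : (ℤ × ℤ) × Bool} (hg : IsG P g) (j : ℕ) (hj : j ≤ n) (z : ℂ)
    (hz : z ∈ segment ℝ (P.pos g.1) (gB P g)) : ‖jet (P.T g.1) j z - F j z‖ ≤ κ / 2 := by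
  rcases hg.cases with ⟨-, y, hy, e1⟩ | ⟨-, y, hy, e1⟩ <;> rw [e1] at hz
  · obtain ⟨-, -, -, -, -, -, -, -, -, -, k1⟩ := h.gap g.1 hg.1 y hy
    exact k1 j hj z hz
  · exact (h.aG g.1 hg.1 y hy).1.close j hj z hz

theorem finE (h : P.OK n W F κ) : {x | IsE P x}.Finite := h.fin.subset fun _ hx => hx.1

theorem finG (h : P.OK n W F κ) : {g | IsG P g}.Finite :=
  (h.fin.prod (Set.finite_univ (α := Bool))).subset fun _ hg => ⟨hg.1, trivial⟩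

end OK

theorem gp : H58.R_GP := by
  intro hB n Cc _ hC hR s κ δ hκ hδ P h
  have mE : ∀ e, e ∈ (finE h).toFinset ↔ IsE P e := fun e => by simp
  have mG : ∀ g, g ∈ (finG h).toFinset ↔ IsG P g := fun g => by simp
  obtain ⟨s', hsub, heq, hnear, hend, hgap, hsec⟩ := hR s κ (δ * κ / Cc) hκ (by positivity)
    (ℤ × ℤ) ((ℤ × ℤ) × Bool) (finE h).toFinset (finG h).toFinset (eP P) P.pos (eT P) P.T
    (fun g => P.pos g.1) (gB P) (fun g => P.T g.1) (JJ P s.F) (ph P)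
    (fun e he => c_rank h ((mE e).1 he))
    (fun _ _ _ _ c => pos_inj (grid h) c)
    (fun e he => c_meet h ((mE e).1 he))
    (fun e he e' he' c => c_ee h ((mE e).1 he) ((mE e').1 he') c)
    (fun g hg => c_g h ((mG g).1 hg))
    (fun g hg g' hg' c => c_gg h ((mG g).1 hg) ((mG g').1 hg') c)
    (fun e he g hg => c_eg h ((mE e).1 he) ((mG g).1 hg))
    (fun j _ z hz => JJ_out h.out s.F j hz)
    (fun e he j hj => c_ej h ((mE e).1 he) j hj)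
    (fun g hg j hj => c_gj h ((mG g).1 hg) j hj)
    (fun e he j hj z hz => c_ec h ((mE e).1 he) j hj z hz)
    (fun g hg j hj z hz => c_gc h ((mG g).1 hg) j hj z hz)
  have htip : ∀ x ∈ P.V, P.Tip x → P.pos x ∈ closure s'.W := by
    intro x hx ht
    rcases ht with ht | ht | ⟨y, hy, ht⟩
    · exact (hend x ((mE x).2 ⟨hx, Or.inl ht⟩)).2
    · exact (hend x ((mE x).2 ⟨hx, Or.inr ht⟩)).2
    · have := (hend y ((mE y).2 ⟨hy, Or.inl (by simp [ht])⟩)).1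
      rwa [(eP_par ht).1] at this
  refine ⟨s', (fun g => (⟨P.pos g.1, gB P g, P.T g.1⟩ : Seg)) '' {g | IsG P g},
    ⟨hsub, heq, hnear⟩, ⟨(finG h).image _, ?_, ?_, ?_, ?_, ?_, ?_, ?_⟩,
    ⟨htip, ?_, ?_, ?_, ?_, ?_⟩⟩
  · rintro _ ⟨g, hg, rfl⟩
    exact (c_g h hg).1
  · rintro _ ⟨g, hg, rfl⟩
    have hg' : IsG P g := hg
    show (P.pos g.1).re = (gB P g).re
    rcases hg'.cases with ⟨-, y, hy, e1⟩ | ⟨-, y, hy, e1⟩ <;> rw [e1]
    · rw [pos_re, pos_re, (h.gap g.1 hg.1 y hy).2.1]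
    · rw [pos_re, (h.aG g.1 hg.1 y hy).1.re]
  · rintro _ ⟨g, hg, rfl⟩
    obtain ⟨q, hq⟩ := h.rat
    refine ⟨g.1.1 * q, ?_⟩
    show (P.pos g.1).re = _
    rw [pos_re, hq]; push_cast; ring
  · rintro _ ⟨g, hg, rfl⟩
    have hg' : IsG P g := hg
    show P.pos g.1 ∈ closure s'.W ∧ gB P g ∈ closure s'.W
    rcases hg'.cases with ⟨-, y, hy, e1⟩ | ⟨-, y, hy, e1⟩ <;> rw [e1]
    · obtain ⟨hV, -, -, -, -, -, -, t1, t2, -⟩ := h.gap g.1 hg.1 y hy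
      exact ⟨htip _ hg.1 t1, htip _ hV t2⟩
    · obtain ⟨hA, t1⟩ := h.aG g.1 hg.1 y hy
      exact ⟨htip _ hg.1 t1, closure_mono hsub hA.mem⟩
  · rintro _ ⟨g, hg, rfl⟩
    exact (hgap g ((mG g).2 hg)).1
  · rintro _ ⟨g, hg, rfl⟩ _ ⟨g', hg', rfl⟩ hne
    exact c_gg h hg hg' fun c => hne (by rw [c])
  · rintro _ ⟨g, hg, rfl⟩
    exact (hgap g ((mG g).2 hg)).2
  · intro x hx y hy
    exact ⟨(x, false), ⟨hx, Or.inl ⟨rfl, by simp [hy]⟩⟩, by simp only [gB_gap hy]⟩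
  · intro x hx y hy
    exact ⟨(x, true), ⟨hx, Or.inr ⟨rfl, by simp [hy]⟩⟩, by simp only [gB_anc hy]⟩
  · intro G hG x hx y hy hT z d h1 h2
    have k := (hsec G hG x ((mE x).2 ⟨hx, Or.inl (by simp [hy])⟩)).2
    rw [(eP_par hy).1, (eP_par hy).2] at k
    have k2 := (k hT.symm).2 z d h2 h1
    rw [hB.ev, hB.ev, norm_sub_rev, norm_sub_rev (P.pos x)]
    exact k2
  · intro G hG x hx y hy
    have k := (hsec G hG x ((mE x).2 ⟨hx, Or.inl (by simp [hy])⟩)).1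
    rw [(eP_par hy).1, (eP_par hy).2] at k
    rw [norm_sub_rev, norm_sub_rev (P.pos x), add_comm (P.pos x)]
    refine k.trans (le_of_eq ?_)
    field_simp
    ring
  · intro G hG x hx y hy
    have hp : P.par x = none := by
      rcases hp : P.par x with _ | u
      · rfl
      · have := (h.par x hx u hp).2.2.2.1
        rw [hy] at this
        cases this
    have k := (hsec G hG x ((mE x).2 ⟨hx, Or.inr (by simp [hy])⟩)).2
    rw [(eP_anc hp hy).1, (eP_anc hp hy).2] at k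
    rw [norm_sub_rev, norm_sub_rev (P.pos x)]
    exact (k rfl).1

end

end Pool.Agent.MP_d32a63_an.H21
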